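import Mathlib

/-!
# MP_822206_co: colouring of oriented affine geometries (the combinatorial core)
-/

set_option autoImplicit false

namespace Pool.Agent.Helper88.SQS

open Submodule

/-- nonzero squares -/
def SQ {K : Type*} [Field K] (z : K) : Prop := ∃ r : K, r ≠ 0 ∧ z = r ^ 2

/-- the sign -/
def sg (K : Type*) [Field K] (δ : Bool) : K := if δ then 1 else -1

theorem sg_ne {K : Type*} [Field K] (δ : Bool) : sg K δ ≠ 0 := by
  cases δ <;> simp [sg]

theorem sg_mul_self {K : Type*} [Field K] (δ : Bool) : sg K δ * sg K δ = 1 := by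
  cases δ <;> simp [sg]

/-- `z` is a nonzero square (`δ = true`) or minus a nonzero square (`δ = false`) -/
def S {K : Type*} [Field K] (δ : Bool) (z : K) : Prop := SQ (sg K δ * z)

/-- the hypotheses on the field: every nonzero element is a square or minus a square, not both -/
structure Fld (K : Type*) [Field K] : Prop where
  or : ∀ z : K, z ≠ 0 → SQ z ∨ SQ (-z)
  nand : ∀ z : K, SQ z → ¬ SQ (-z)

theorem SQ.ne {K : Type*} [Field K] {z : K} (h : SQ z) : z ≠ 0 := by
  obtain ⟨r, hr, rfl⟩ := h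
  exact pow_ne_zero 2 hr

theorem S.ne {K : Type*} [Field K] {δ : Bool} {z : K} (h : S δ z) : z ≠ 0 := by
  intro hz
  apply SQ.ne h
  rw [hz, mul_zero]

theorem Fld.exists_S {K : Type*} [Field K] (hK : Fld K) {z : K} (hz : z ≠ 0) :
    ∃ δ : Bool, S δ z := by
  rcases hK.or z hz with h | h
  · exact ⟨true, by simpa [S, sg] using h⟩
  · exact ⟨false, by simpa [S, sg] using h⟩

theorem Fld.S_unique {K : Type*} [Field K] (hK : Fld K) {z : K} {δ δ' : Bool} (h : S δ z)
    (h' : S δ' z) : δ = δ' := by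
  cases δ <;> cases δ' <;> first | rfl | skip
  · exfalso
    have h1 : SQ (-z) := by simpa [S, sg] using h
    have h2 : SQ z := by simpa [S, sg] using h'
    exact hK.nand z h2 h1
  · exfalso
    have h1 : SQ (-z) := by simpa [S, sg] using h'
    have h2 : SQ z := by simpa [S, sg] using h
    exact hK.nand z h2 h1

/-- The base colourings of the triples `x + w C`, `C = {1, θ, θ²}`, of the field `K`. -/
structure Base (K : Type*) [Field K] (θ : K) where
  col : Bool → K → K → K
  rot : ∀ δ x w, w ≠ 0 → col δ x (θ * w) = col δ x w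
  inj : ∀ δ x w x' w', w ≠ 0 → w' ≠ 0 → SQ (w' * w⁻¹) → col δ x w = col δ x' w' →
    x + w = x' + w' → x = x' ∧ w = w'
  miss : ∀ δ x w, w ≠ 0 → col δ x w ≠ 0 → S δ (col δ x w) ∧ col δ x w ≠ x + w
  short : ∀ δ x w, w ≠ 0 → col δ x w = 0 → S δ (x + w)

section planes

variable {K E : Type*} [Field K] [AddCommGroup E] [Module K E]

open Classical in
/-- a generator of a one-dimensional subspace -/
noncomputable def rS (P : Submodule K E) : E :=
  if h : ∃ u ∈ P, u ≠ 0 then h.choose else 0

theorem rS_mem (P : Submodule K E) : rS P ∈ P := by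
  unfold rS
  split_ifs with h
  · exact h.choose_spec.1
  · exact P.zero_mem

theorem rS_ne {P : Submodule K E} (h : ∃ u ∈ P, u ≠ 0) : rS P ≠ 0 := by
  unfold rS
  rw [dif_pos h]
  exact h.choose_spec.2

variable (K) in
/-- the representative of the line through `0` and `v` -/
noncomputable def rep (v : E) : E := rS (span K {v})

theorem rep_ne {v : E} (hv : v ≠ 0) : rep K v ≠ 0 :=
  rS_ne ⟨v, mem_span_singleton_self v, hv⟩

theorem exists_rep {v : E} (hv : v ≠ 0) : ∃ k : K, k ≠ 0 ∧ v = k • rep K v := by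
  obtain ⟨c, hc⟩ := mem_span_singleton.1 (rS_mem (span K {v}))
  have hc0 : c ≠ 0 := by
    rintro rfl
    rw [zero_smul] at hc
    exact rep_ne hv hc.symm
  refine ⟨c⁻¹, inv_ne_zero hc0, ?_⟩
  show v = c⁻¹ • rS (span K {v})
  rw [← hc, inv_smul_smul₀ hc0]

theorem rep_smul {v : E} {k : K} (hk : k ≠ 0) : rep K (k • v) = rep K v := by
  unfold rep
  congr 1
  apply le_antisymm
  · rw [span_singleton_le_iff_mem]
    exact smul_mem _ _ (mem_span_singleton_self v)
  · rw [span_singleton_le_iff_mem, mem_span_singleton]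
    exact ⟨k⁻¹, inv_smul_smul₀ hk v⟩

theorem rep_rep {v : E} (hv : v ≠ 0) : rep K (rep K v) = rep K v := by
  obtain ⟨k, hk, h⟩ := exists_rep (K := K) hv
  have h1 : rep K v = k⁻¹ • v := by
    conv_rhs => rw [h]
    rw [inv_smul_smul₀ hk]
  conv_lhs => rw [h1]
  rw [rep_smul (inv_ne_zero hk)]

/-- if two representatives have a common nonzero multiple they are equal -/
theorem rep_eq {u v : E} (hu : u ≠ 0) (hv : v ≠ 0) {s t : K} (hs : s ≠ 0)
    (h : s • rep K u = t • rep K v) : rep K u = rep K v := by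
  have ht : t ≠ 0 := by
    rintro rfl
    rw [zero_smul] at h
    exact (smul_ne_zero hs (rep_ne hu)) h
  have h1 : rep K (s • rep K u) = rep K u := by rw [rep_smul hs, rep_rep hu]
  have h2 : rep K (t • rep K v) = rep K v := by rw [rep_smul ht, rep_rep hv]
  rw [← h1, h, h2]

open Classical in
/-- a complex structure on the plane `P` -/
noncomputable def JP (P : Submodule K E) : P →ₗ[K] P :=
  if h : ∃ J : P →ₗ[K] P, ∀ v, J (J v) = -v then h.choose else 0

theorem exists_J {w p : E} (hw : w ≠ 0) (hp : p ∉ span K {w}) :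
    ∃ J : (span K {w, p} : Submodule K E) →ₗ[K] (span K {w, p} : Submodule K E),
      ∀ v, J (J v) = -v := by
  have hli : LinearIndependent K ![w, p] := by
    rw [LinearIndependent.pair_iff]
    intro s t hst
    have ht : t = 0 := by
      by_contra ht
      apply hp
      rw [mem_span_singleton]
      refine ⟨-(t⁻¹ * s), ?_⟩
      have : t • p = -(s • w) := by
        rw [eq_neg_iff_add_eq_zero, add_comm]
        exact hst
      calc -(t⁻¹ * s) • w = t⁻¹ • (-(s • w)) := by
            rw [neg_smul, smul_neg, smul_smul]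
        _ = t⁻¹ • (t • p) := by rw [this]
        _ = p := inv_smul_smul₀ ht p
    refine ⟨?_, ht⟩
    rw [ht, zero_smul, add_zero] at hst
    exact (smul_eq_zero.1 hst).resolve_right hw
  have hr : span K (Set.range ![w, p]) = span K {w, p} := by
    congr 1
    ext x
    simp only [Matrix.range_cons, Matrix.range_empty, Set.union_empty, Set.mem_union,
      Set.mem_singleton_iff, Set.mem_insert_iff]
  let b0 : Module.Basis (Fin 2) K (span K (Set.range ![w, p])) := Module.Basis.span hli
  let b : Module.Basis (Fin 2) K (span K {w, p} : Submodule K E) :=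
    b0.map (LinearEquiv.ofEq _ _ hr)
  let J := b.constr K ![b 1, -(b 0)]
  refine ⟨J, ?_⟩
  have h0 : J (b 0) = b 1 := by
    simp [J]
  have h1 : J (b 1) = -(b 0) := by
    simp [J]
  have hJJ : J ∘ₗ J = -LinearMap.id := by
    apply b.ext
    intro i
    fin_cases i
    · show J (J (b 0)) = -(b 0)
      rw [h0, h1]
    · show J (J (b 1)) = -(b 1)
      rw [h1, map_neg, h0]
  intro v
  have := LinearMap.congr_fun hJJ v
  exact this

theorem JP_spec {w p : E} (hw : w ≠ 0) (hp : p ∉ span K {w})
    (v : (span K {w, p} : Submodule K E)) :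
    JP (span K {w, p}) (JP (span K {w, p}) v) = -v := by
  have h := exists_J hw hp
  unfold JP
  rw [dif_pos h]
  exact h.choose_spec v

open Classical in
/-- the vector `J w` (in the plane `P`) -/
noncomputable def jv (P : Submodule K E) (w : E) : E :=
  if h : w ∈ P then (JP P ⟨w, h⟩ : E) else 0

theorem jv_mem {P : Submodule K E} {w : E} : jv P w ∈ P := by
  unfold jv
  split_ifs with h
  · exact (JP P ⟨w, h⟩).2
  · exact P.zero_mem

theorem jv_smul {P : Submodule K E} {w : E} (hw : w ∈ P) (k : K) :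
    jv P (k • w) = k • jv P w := by
  unfold jv
  rw [dif_pos hw, dif_pos (P.smul_mem k hw)]
  have : (⟨k • w, P.smul_mem k hw⟩ : P) = k • ⟨w, hw⟩ := rfl
  rw [this, map_smul]
  rfl

/-- plane property -/
def IsP (P : Submodule K E) : Prop := ∀ v : P, JP P (JP P v) = -v

theorem jv_jv {P : Submodule K E} (hP : IsP P) {w : E} (hw : w ∈ P) :
    jv P (jv P w) = -w := by
  have h1 : jv P w = (JP P ⟨w, hw⟩ : E) := by
    unfold jv
    rw [dif_pos hw]
  rw [h1]
  unfold jv
  rw [dif_pos (JP P ⟨w, hw⟩).2]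
  have := hP ⟨w, hw⟩
  have h2 : (⟨(JP P ⟨w, hw⟩ : E), (JP P ⟨w, hw⟩).2⟩ : P) = JP P ⟨w, hw⟩ := rfl
  rw [h2, this]
  rfl

theorem jv_ne {P : Submodule K E} (hP : IsP P) {w : E} (hw : w ∈ P) (hw0 : w ≠ 0) :
    jv P w ≠ 0 := by
  intro h
  have h1 := jv_jv hP hw
  rw [h] at h1
  have h2 : jv P (0 : E) = 0 := by
    have := jv_smul (P.zero_mem) (0 : K)
    simpa using this
  rw [h2] at h1
  exact hw0 (neg_eq_zero.1 h1.symm)

theorem jv_not_mem (hK : Fld K) {P : Submodule K E} (hP : IsP P) {w : E} (hw : w ∈ P)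
    (hw0 : w ≠ 0) : jv P w ∉ span K {w} := by
  intro h
  obtain ⟨k, hk⟩ := mem_span_singleton.1 h
  have h1 := jv_jv hP hw
  rw [← hk, jv_smul hw, ← hk, smul_smul] at h1
  have h2 : (k * k + 1) • w = 0 := by
    rw [add_smul, h1, one_smul, neg_add_cancel]
  have h3 : k * k + 1 = 0 := (smul_eq_zero.1 h2).resolve_right hw0
  have hk0 : k ≠ 0 := by
    rintro rfl
    simp at h3
  have h4 : SQ (-(1 : K)) := ⟨k, hk0, by linear_combination -h3⟩
  have h5 : SQ (1 : K) := ⟨1, one_ne_zero, by simp⟩
  exact hK.nand 1 h5 h4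

end planes

end Pool.Agent.Helper88.SQS
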