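import Pool.Agent.Helper88.SQS.Colour

/-!
# MP_822206_co: the colouring of an oriented affine geometry is proper
-/

set_option autoImplicit false

namespace Pool.Agent.Helper88.SQS

open Submodule

variable {K E : Type*} [Field K] [AddCommGroup E] [Module K E]

theorem li_of {u v : E} (hu : u ≠ 0) (hv : v ∉ span K {u}) : LinearIndependent K ![u, v] := by
  rw [LinearIndependent.pair_iff]
  intro s t hst
  have ht : t = 0 := by
    by_contra ht
    apply hv
    rw [mem_span_singleton]
    refine ⟨-(t⁻¹ * s), ?_⟩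
    have : t • v = -(s • u) := by
      rw [eq_neg_iff_add_eq_zero, add_comm]
      exact hst
    calc -(t⁻¹ * s) • u = t⁻¹ • (-(s • u)) := by
          rw [neg_smul, smul_neg, smul_smul]
      _ = t⁻¹ • (t • v) := by rw [this]
      _ = v := inv_smul_smul₀ ht v
  refine ⟨?_, ht⟩
  rw [ht, zero_smul, add_zero] at hst
  exact (smul_eq_zero.1 hst).resolve_right hu

theorem finrank_pl {u v : E} (hu : u ≠ 0) (hv : v ∉ span K {u}) :
    Module.finrank K (span K {u, v} : Submodule K E) = 2 := by
  have hli := li_of hu hv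
  have hr : Set.range ![u, v] = {u, v} := by
    ext x
    simp only [Matrix.range_cons, Matrix.range_empty, Set.union_empty, Set.mem_union,
      Set.mem_singleton_iff, Set.mem_insert_iff]
  have := finrank_span_eq_card hli
  rw [hr] at this
  simpa using this

theorem span_pl {w p u v : E} (hw : w ≠ 0) (hp : p ∉ span K {w}) (hu : u ≠ 0)
    (hv : v ∉ span K {u}) (hu' : u ∈ span K {w, p}) (hv' : v ∈ span K {w, p}) :
    span K {u, v} = span K {w, p} := by
  have h1 := finrank_pl hw hp
  have h2 := finrank_pl hu hv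
  have hle : span K {u, v} ≤ span K {w, p} := by
    rw [span_le]
    rintro x (rfl | rfl)
    · exact hu'
    · exact hv'
  have : FiniteDimensional K (span K {w, p} : Submodule K E) :=
    FiniteDimensional.span_of_finite K (Set.toFinite _)
  exact Submodule.eq_of_le_of_finrank_le hle (by rw [h1, h2])

theorem mem_pl_left (w p : E) : w ∈ span K {w, p} := subset_span (Set.mem_insert _ _)

theorem mem_pl_right (w p : E) : p ∈ span K {w, p} :=
  subset_span (Set.mem_insert_of_mem _ rfl)

theorem isP_pl {w p : E} (hw : w ≠ 0) (hp : p ∉ span K {w}) : IsP (K := K) (span K {w, p}) :=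
  fun v => JP_spec hw hp v

theorem rep_mem {P : Submodule K E} {v : E} (hv : v ∈ P) : rep K v ∈ P := by
  have h1 : rep K v ∈ span K {v} := rS_mem _
  exact (span_singleton_le_iff_mem v P).2 hv h1

theorem span_rep {v : E} (hv : v ≠ 0) : span K {rep K v} = span K {v} := by
  apply le_antisymm
  · rw [span_singleton_le_iff_mem]
    exact rS_mem _
  · rw [span_singleton_le_iff_mem, mem_span_singleton]
    obtain ⟨k, -, h⟩ := exists_rep (K := K) hv
    exact ⟨k, h.symm⟩

theorem rep_eq_of_span {u v : E} (h : span K {u} = span K {v}) : rep K u = rep K v := by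
  unfold rep
  rw [h]

/-- two directions `a`, `b` of a plane are independent -/
theorem ab_indep (hK : Fld K) {P : Submodule K E} (hP : IsP P) {w : E} (hw : w ∈ P)
    (hw0 : w ≠ 0) {s t : K} (h : s • rep K w + t • rep K (jv P w) = 0) : s = 0 ∧ t = 0 := by
  have h0 := jv_ne hP hw hw0
  have h1 : rep K (jv P w) ∉ span K {rep K w} := by
    rw [span_rep hw0]
    intro h2
    apply jv_not_mem hK hP hw hw0
    obtain ⟨k, -, h3⟩ := exists_rep (K := K) h0
    rw [h3]
    exact smul_mem _ _ h2
  have := li_of (rep_ne hw0) h1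
  rw [LinearIndependent.pair_iff] at this
  exact this s t h

theorem ab_eq (hK : Fld K) {P : Submodule K E} (hP : IsP P) {w : E} (hw : w ∈ P)
    (hw0 : w ≠ 0) {s t s' t' : K}
    (h : s • rep K w + t • rep K (jv P w) = s' • rep K w + t' • rep K (jv P w)) :
    s = s' ∧ t = t' := by
  have h1 : (s - s') • rep K w + (t - t') • rep K (jv P w) = 0 := by
    rw [sub_smul, sub_smul]
    have : s • rep K w - s' • rep K w + (t • rep K (jv P w) - t' • rep K (jv P w)) =
        (s • rep K w + t • rep K (jv P w)) - (s' • rep K w + t' • rep K (jv P w)) := by abel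
    rw [this, h, sub_self]
  have := ab_indep hK hP hw hw0 h1
  exact ⟨sub_eq_zero.1 this.1, sub_eq_zero.1 this.2⟩

/-- the partner of the partner -/
theorem partner (hK : Fld K) {P : Submodule K E} (hP : IsP P) {w : E} (hw : w ∈ P)
    (hw0 : w ≠ 0) {u : E} (hu : u ∈ P) (hu0 : u ≠ 0) (h : rep K u = rep K (jv P w)) :
    rep K (jv P u) = rep K w := by
  obtain ⟨k, hk, h1⟩ := exists_rep (K := K) hu0
  obtain ⟨l, hl, h2⟩ := exists_rep (K := K) (jv_ne hP hw hw0)
  have h3 : u = (k * l⁻¹) • jv P w := by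
    rw [h1, h]
    conv_rhs => rw [h2]
    rw [smul_smul]
    congr 1
    field_simp
  rw [h3, jv_smul jv_mem, jv_jv hP hw]
  have : (k * l⁻¹) • -w = (-(k * l⁻¹)) • w := by rw [smul_neg, neg_smul]
  rw [this, rep_smul (neg_ne_zero.2 (mul_ne_zero hk (inv_ne_zero hl)))]

/-- `k` is the colour of the triple `p + w C` -/
def Col {θ : K} (B : Base K θ) (p w k : E) : Prop :=
  (∃ π ω : K, ω ≠ 0 ∧ p = π • rep K w ∧ w = ω • rep K w ∧ k = B.col true π ω • rep K w) ∨
  (p ∉ span K {w} ∧ ∃ (x y ω : K) (δ : Bool), ω ≠ 0 ∧ S δ y ∧ w = ω • rep K w ∧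
    p = x • rep K w + y • rep K (jv (span K {w, p}) w) ∧
    ((B.col δ x ω ≠ 0 ∧ k = (sg K δ * B.col δ x ω) • rep K w) ∨
      (B.col δ x ω = 0 ∧ k = (sg K δ * y) • rep K (jv (span K {w, p}) w))))

theorem exists_coord (hK : Fld K) {w p : E} (hw : w ≠ 0) (hp : p ∉ span K {w}) :
    ∃ x y : K, y ≠ 0 ∧ p = x • rep K w + y • rep K (jv (span K {w, p}) w) := by
  have hP := isP_pl hw hp
  have hwP := mem_pl_left (K := K) w p
  have hj := jv_not_mem hK hP hwP hw
  have hj0 := jv_ne hP hwP hw
  obtain ⟨k, hk, h1⟩ := exists_rep (K := K) hj0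
  obtain ⟨l, hl, h2⟩ := exists_rep (K := K) hw
  have h3 : jv (span K {w, p}) w ∈ span K {w, p} := jv_mem
  rw [mem_span_pair] at h3
  obtain ⟨α, β, h4⟩ := h3
  have hβ : β ≠ 0 := by
    rintro rfl
    apply hj
    rw [zero_smul, add_zero] at h4
    rw [mem_span_singleton]
    exact ⟨α, h4⟩
  have h5 : p = β⁻¹ • (jv (span K {w, p}) w - α • w) := by
    have : jv (span K {w, p}) w - α • w = β • p := by
      rw [← h4]
      abel
    rw [this, inv_smul_smul₀ hβ]
  set b := rep K (jv (span K {w, p}) w) with hb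
  set a := rep K w with ha
  have h6 : p = (-(β⁻¹ * (α * l))) • a + (β⁻¹ * k) • b := by
    calc p = β⁻¹ • (jv (span K {w, p}) w - α • w) := h5
      _ = β⁻¹ • (k • b - α • (l • a)) := by rw [← h1, ← h2]
      _ = (-(β⁻¹ * (α * l))) • a + (β⁻¹ * k) • b := by module
  exact ⟨_, _, mul_ne_zero (inv_ne_zero hβ) hk, h6⟩

theorem exists_Col (hK : Fld K) {θ : K} (B : Base K θ) {w : E} (p : E) (hw : w ≠ 0) :
    ∃ k, Col B p w k := by
  obtain ⟨ω, hω, h1⟩ := exists_rep (K := K) hw
  by_cases hp : p ∈ span K {w}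
  · rw [← span_rep hw] at hp
    obtain ⟨π, h2⟩ := mem_span_singleton.1 hp
    exact ⟨_, Or.inl ⟨π, ω, hω, h2.symm, h1, rfl⟩⟩
  · obtain ⟨x, y, hy, h2⟩ := exists_coord hK hw hp
    obtain ⟨δ, hδ⟩ := hK.exists_S hy
    by_cases hc : B.col δ x ω = 0
    · exact ⟨_, Or.inr ⟨hp, x, y, ω, δ, hω, hδ, h1, h2, Or.inr ⟨hc, rfl⟩⟩⟩
    · exact ⟨_, Or.inr ⟨hp, x, y, ω, δ, hω, hδ, h1, h2, Or.inl ⟨hc, rfl⟩⟩⟩

theorem span_smul_pair {w p : E} {k : K} (hk : k ≠ 0) :
    span K {k • w, p} = span K {w, p} := by
  apply le_antisymm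
  · rw [span_le]
    intro x hx
    rcases hx with h | h
    · rw [h]
      exact smul_mem _ _ (mem_pl_left w p)
    · rw [h]
      exact mem_pl_right w p
  · rw [span_le]
    intro x hx
    rcases hx with h | h
    · rw [h]
      have := smul_mem _ k⁻¹ (mem_pl_left (K := K) (k • w) p)
      rwa [inv_smul_smul₀ hk] at this
    · rw [h]
      exact mem_pl_right _ _

theorem span_smul_one {w : E} {k : K} (hk : k ≠ 0) :
    span K {k • w} = span K {w} := by
  apply le_antisymm
  · rw [span_singleton_le_iff_mem]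
    exact smul_mem _ _ (mem_span_singleton_self w)
  · rw [span_singleton_le_iff_mem, mem_span_singleton]
    exact ⟨k⁻¹, inv_smul_smul₀ hk w⟩

theorem Col_rot {θ : K} (hθ : θ ≠ 0) (B : Base K θ) {p w k : E} (h : Col B p w k) :
    Col B p (θ • w) k := by
  unfold Col
  rw [rep_smul hθ, span_smul_pair hθ, span_smul_one hθ, jv_smul (mem_pl_left w p), rep_smul hθ]
  rcases h with ⟨π, ω, hω, h1, h2, h3⟩ | ⟨h0, x, y, ω, δ, hω, hy, h1, h2, h3⟩
  · refine Or.inl ⟨π, θ * ω, mul_ne_zero hθ hω, h1, ?_, ?_⟩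
    · conv_lhs => rw [h2]
      rw [smul_smul]
    · rw [B.rot _ _ _ hω]
      exact h3
  · refine Or.inr ⟨h0, x, y, θ * ω, δ, mul_ne_zero hθ hω, hy, ?_, h2, ?_⟩
    · conv_lhs => rw [h1]
      rw [smul_smul]
    · rw [B.rot _ _ _ hω]
      exact h3

theorem fin1 {θ : K} (B : Base K θ) {Y : E → E → Prop}
    (hY : ∀ p w (l m : K), l ≠ 0 → Y p w → Y (p + m • w) (l • w) → SQ l)
    {a z : E} {x ω x' ω' : K} {δ : Bool} (hω : ω ≠ 0) (hω' : ω' ≠ 0)
    (h1 : Y (x • a + z) (ω • a)) (h2 : Y (x' • a + z) (ω' • a))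
    (h3 : B.col δ x ω = B.col δ x' ω') (h4 : x + ω = x' + ω') : x = x' ∧ ω = ω' := by
  have h5 : SQ (ω' * ω⁻¹) := by
    apply hY (x • a + z) (ω • a) (ω' * ω⁻¹) ((x' - x) * ω⁻¹) (mul_ne_zero hω' (inv_ne_zero hω)) h1
    have e1 : x • a + z + ((x' - x) * ω⁻¹) • ω • a = x' • a + z := by
      rw [smul_smul, mul_assoc, inv_mul_cancel₀ hω]
      module
    have e2 : (ω' * ω⁻¹) • ω • a = ω' • a := by
      rw [smul_smul, mul_assoc, inv_mul_cancel₀ hω, mul_one]
    rw [e1, e2]
    exact h2
  exact B.inj δ x ω x' ω' hω hω' h5 h3 h4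

theorem fin2 {θ : K} (B : Base K θ) {Y : E → E → Prop}
    (hY : ∀ p w (l m : K), l ≠ 0 → Y p w → Y (p + m • w) (l • w) → SQ l)
    {a z p w p' w' : E} {x ω x' ω' : K} {δ : Bool} (hω : ω ≠ 0) (hω' : ω' ≠ 0)
    (hp : p = x • a + z) (hw : w = ω • a) (hp' : p' = x' • a + z) (hw' : w' = ω' • a)
    (h1 : Y p w) (h2 : Y p' w')
    (h3 : B.col δ x ω = B.col δ x' ω') (h4 : x + ω = x' + ω') : p = p' ∧ w = w' := by
  subst hp hw hp' hw'
  obtain ⟨rfl, rfl⟩ := fin1 B hY hω hω' h1 h2 h3 h4
  exact ⟨rfl, rfl⟩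

theorem add_mem_pl (w p : E) : p + w ∈ span K {w, p} :=
  add_mem (mem_pl_right w p) (mem_pl_left w p)

theorem add_not_mem {w p : E} (hp : p ∉ span K {w}) : p + w ∉ span K {w} := by
  intro h
  apply hp
  have := sub_mem h (mem_span_singleton_self w)
  rwa [add_sub_cancel_right] at this

/-- type 1 and type 2 -/
theorem no12 (hK : Fld K) {θ : K} (B : Base K θ) {p w p' w' k : E} (hw : w ≠ 0) (hw' : w' ≠ 0)
    (h : p + w = p' + w')
    {π ω : K} (hω : ω ≠ 0) (e1 : p = π • rep K w) (e2 : w = ω • rep K w)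
    (e3 : k = B.col true π ω • rep K w)
    {x' y' ω' : K} {δ' : Bool} (n0' : p' ∉ span K {w'}) (hω' : ω' ≠ 0) (hy' : S δ' y')
    (e1' : w' = ω' • rep K w')
    (e2' : p' = x' • rep K w' + y' • rep K (jv (span K {w', p'}) w'))
    (e3' : (B.col δ' x' ω' ≠ 0 ∧ k = (sg K δ' * B.col δ' x' ω') • rep K w') ∨
      (B.col δ' x' ω' = 0 ∧ k = (sg K δ' * y') • rep K (jv (span K {w', p'}) w'))) : False := by
  have hP' := isP_pl hw' n0'
  have hwP' := mem_pl_left (K := K) w' p'
  have hj' := jv_ne hP' hwP' hw'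
  have ha := rep_ne (K := K) hw
  have ha' := rep_ne (K := K) hw'
  have hb' := rep_ne (K := K) hj'
  have s1 : p + w = (π + ω) • rep K w := by
    conv_lhs => rw [e1]
    nth_rewrite 2 [e2]
    rw [← add_smul]
  have s2 : p' + w' = (x' + ω') • rep K w' + y' • rep K (jv (span K {w', p'}) w') := by
    calc p' + w' = (x' • rep K w' + y' • rep K (jv (span K {w', p'}) w')) + ω' • rep K w' :=
          congrArg₂ (· + ·) e2' e1'
      _ = (x' + ω') • rep K w' + y' • rep K (jv (span K {w', p'}) w') := by module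
  have s3 : (π + ω) • rep K w =
      (x' + ω') • rep K w' + y' • rep K (jv (span K {w', p'}) w') := by
    rw [← s1, h, s2]
  rcases e3' with ⟨c1, c2⟩ | ⟨c1, c2⟩
  · have hc : sg K δ' * B.col δ' x' ω' ≠ 0 := mul_ne_zero (sg_ne δ') c1
    have hr : rep K w' = rep K w := rep_eq hw' hw hc (c2.symm.trans e3)
    rw [← hr] at s3
    have := ab_eq hK hP' hwP' hw' (s := π + ω) (t := 0) (s' := x' + ω') (t' := y')
      (by rw [zero_smul, add_zero]; exact s3)
    exact hy'.ne this.2.symm
  · have hc : sg K δ' * y' ≠ 0 := mul_ne_zero (sg_ne δ') hy'.ne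
    have hr : rep K (jv (span K {w', p'}) w') = rep K w := rep_eq hj' hw hc (c2.symm.trans e3)
    rw [← hr] at s3
    have := ab_eq hK hP' hwP' hw' (s := 0) (t := π + ω) (s' := x' + ω') (t' := y')
      (by rw [zero_smul, zero_add]; exact s3)
    exact (B.short δ' x' ω' hω' c1).ne this.1.symm

theorem sum2 {p w : E} {x y ω : K} {b : E} (e1 : w = ω • rep K w)
    (e2 : p = x • rep K w + y • b) : p + w = (x + ω) • rep K w + y • b := by
  calc p + w = (x • rep K w + y • b) + ω • rep K w := congrArg₂ (· + ·) e2 e1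
    _ = (x + ω) • rep K w + y • b := by module

/-- types 2a and 2b -/
theorem no2a2b (hK : Fld K) {θ : K} (B : Base K θ) {p w p' w' k : E} (hw : w ≠ 0) (hw' : w' ≠ 0)
    (h : p + w = p' + w')
    {x y ω : K} {δ : Bool} (n0 : p ∉ span K {w}) (hω : ω ≠ 0) (hy : S δ y)
    (e1 : w = ω • rep K w)
    (e2 : p = x • rep K w + y • rep K (jv (span K {w, p}) w))
    (c1 : B.col δ x ω ≠ 0) (c2 : k = (sg K δ * B.col δ x ω) • rep K w)
    {x' y' ω' : K} {δ' : Bool} (n0' : p' ∉ span K {w'}) (hω' : ω' ≠ 0) (hy' : S δ' y')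
    (e1' : w' = ω' • rep K w')
    (e2' : p' = x' • rep K w' + y' • rep K (jv (span K {w', p'}) w'))
    (c1' : B.col δ' x' ω' = 0) (c2' : k = (sg K δ' * y') • rep K (jv (span K {w', p'}) w')) :
    False := by
  have hP := isP_pl hw n0
  have hwP := mem_pl_left (K := K) w p
  have hj := jv_ne hP hwP hw
  have hP' := isP_pl hw' n0'
  have hwP' := mem_pl_left (K := K) w' p'
  have hj' := jv_ne hP' hwP' hw'
  have s1 := sum2 e1 e2
  have s2 := sum2 e1' e2'
  have hc : sg K δ * B.col δ x ω ≠ 0 := mul_ne_zero (sg_ne δ) c1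
  have hr : rep K w = rep K (jv (span K {w', p'}) w') := rep_eq hw hj' hc (c2.symm.trans c2')
  have hwP2 : w ∈ span K {w', p'} := by
    rw [e1, hr]
    exact smul_mem _ _ (rep_mem jv_mem)
  have hPP : span K {w, p} = span K {w', p'} := by
    rw [← span_pl hw n0 hw (add_not_mem n0) hwP (add_mem_pl w p)]
    apply span_pl hw' n0' hw (add_not_mem n0) hwP2
    rw [h]
    exact add_mem_pl w' p'
  have hb : rep K (jv (span K {w, p}) w) = rep K w' := by
    rw [hPP]
    exact partner hK hP' hwP' hw' hwP2 hw hr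
  have hs : sg K δ * B.col δ x ω = sg K δ' * y' := by
    have := c2.symm.trans c2'
    rw [← hr] at this
    exact smul_left_injective K (rep_ne hw) this
  have s3 : (x + ω) • rep K w + y • rep K (jv (span K {w, p}) w) =
      y' • rep K w + (x' + ω') • rep K (jv (span K {w, p}) w) := by
    rw [← s1, h, s2, ← hr, hb, add_comm]
  obtain ⟨t1, t2⟩ := ab_eq hK hP hwP hw s3
  have hδ : δ = δ' := by
    apply hK.S_unique hy
    rw [t2]
    exact B.short δ' x' ω' hω' c1'
  subst hδ
  have h5 : B.col δ x ω = y' := mul_left_cancel₀ (sg_ne δ) hs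
  exact (B.miss δ x ω hω c1).2 (by rw [h5, t1])

theorem Col_main (hK : Fld K) {θ : K} (B : Base K θ) {Y : E → E → Prop}
    (hY : ∀ p w (l m : K), l ≠ 0 → Y p w → Y (p + m • w) (l • w) → SQ l)
    {p w p' w' k : E} (hw : w ≠ 0) (hw' : w' ≠ 0) (h1 : Y p w) (h2 : Y p' w')
    (hk : Col B p w k) (hk' : Col B p' w' k) (h : p + w = p' + w') : p = p' ∧ w = w' := by
  have ha := rep_ne (K := K) hw
  have ha' := rep_ne (K := K) hw'
  rcases hk with ⟨π, ω, hω, e1, e2, e3⟩ | ⟨n0, x, y, ω, δ, hω, hy, e1, e2, e3⟩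
  · rcases hk' with ⟨π', ω', hω', e1', e2', e3'⟩ |
      ⟨n0', x', y', ω', δ', hω', hy', e1', e2', e3'⟩
    · have s1 : p + w = (π + ω) • rep K w := by
        conv_lhs => rw [e1]
        nth_rewrite 2 [e2]
        rw [← add_smul]
      have s1' : p' + w' = (π' + ω') • rep K w' := by
        conv_lhs => rw [e1']
        nth_rewrite 2 [e2']
        rw [← add_smul]
      have s3 : (π + ω) • rep K w = (π' + ω') • rep K w' := by rw [← s1, h, s1']
      have hr : rep K w = rep K w' := by
        by_cases hc : B.col true π ω = 0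
        · exact rep_eq hw hw' (B.short true π ω hω hc).ne s3
        · exact rep_eq hw hw' hc (e3.symm.trans e3')
      have s4 : π + ω = π' + ω' := by
        rw [← hr] at s3
        exact smul_left_injective K ha s3
      have s5 : B.col true π ω = B.col true π' ω' := by
        have := e3.symm.trans e3'
        rw [← hr] at this
        exact smul_left_injective K ha this
      exact fin2 (a := rep K w) (z := 0) B hY hω hω' (by rw [add_zero]; exact e1) e2
        (by rw [add_zero, hr]; exact e1') (by rw [hr]; exact e2') h1 h2 s5 s4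
    · exact (no12 hK B hw hw' h hω e1 e2 e3 n0' hω' hy' e1' e2' e3').elim
  · rcases hk' with ⟨π', ω', hω', e1', e2', e3'⟩ |
      ⟨n0', x', y', ω', δ', hω', hy', e1', e2', e3'⟩
    · exact (no12 hK B hw' hw h.symm hω' e1' e2' e3' n0 hω hy e1 e2 e3).elim
    · rcases e3 with ⟨c1, c2⟩ | ⟨c1, c2⟩
      · rcases e3' with ⟨c1', c2'⟩ | ⟨c1', c2'⟩
        · -- 2a 2a
          have hP := isP_pl hw n0
          have hwP := mem_pl_left (K := K) w p
          have hj := jv_ne hP hwP hw
          have hP' := isP_pl hw' n0'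
          have hwP' := mem_pl_left (K := K) w' p'
          have s1 := sum2 e1 e2
          have s2 := sum2 e1' e2'
          have hc : sg K δ * B.col δ x ω ≠ 0 := mul_ne_zero (sg_ne δ) c1
          have hr : rep K w = rep K w' := rep_eq hw hw' hc (c2.symm.trans c2')
          have hww : w' = (ω' * ω⁻¹) • w := by
            conv_lhs => rw [e1', ← hr]
            conv_rhs => rw [e1]
            rw [smul_smul, mul_assoc, inv_mul_cancel₀ hω, mul_one]
          have hwP2 : w ∈ span K {w', p'} := by
            rw [e1, hr]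
            exact smul_mem _ _ (rep_mem hwP')
          have hPP : span K {w, p} = span K {w', p'} := by
            rw [← span_pl hw n0 hw (add_not_mem n0) hwP (add_mem_pl w p)]
            apply span_pl hw' n0' hw (add_not_mem n0) hwP2
            rw [h]
            exact add_mem_pl w' p'
          have hb : rep K (jv (span K {w', p'}) w') = rep K (jv (span K {w, p}) w) := by
            rw [← hPP, hww, jv_smul hwP, rep_smul (mul_ne_zero hω' (inv_ne_zero hω))]
          have s3 : (x + ω) • rep K w + y • rep K (jv (span K {w, p}) w) =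
              (x' + ω') • rep K w + y' • rep K (jv (span K {w, p}) w) := by
            rw [← s1, h, s2, ← hr, hb]
          obtain ⟨t1, t2⟩ := ab_eq hK hP hwP hw s3
          have hδ : δ = δ' := hK.S_unique hy (by rw [t2]; exact hy')
          subst hδ
          have hs : B.col δ x ω = B.col δ x' ω' := by
            have := c2.symm.trans c2'
            rw [← hr] at this
            exact mul_left_cancel₀ (sg_ne δ) (smul_left_injective K ha this)
          exact fin2 (a := rep K w) (z := y • rep K (jv (span K {w, p}) w)) B hY hω hω' e2 e1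
            (by rw [← hb, t2, hr]; exact e2') (by rw [hr]; exact e1') h1 h2 hs t1
        · exact (no2a2b hK B hw hw' h n0 hω hy e1 e2 c1 c2 n0' hω' hy' e1' e2' c1' c2').elim
      · rcases e3' with ⟨c1', c2'⟩ | ⟨c1', c2'⟩
        · exact (no2a2b hK B hw' hw h.symm n0' hω' hy' e1' e2' c1' c2' n0 hω hy e1 e2 c1 c2).elim
        · -- 2b 2b
          have hP := isP_pl hw n0
          have hwP := mem_pl_left (K := K) w p
          have hj := jv_ne hP hwP hw
          have hP' := isP_pl hw' n0'
          have hwP' := mem_pl_left (K := K) w' p'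
          have hj' := jv_ne hP' hwP' hw'
          have s1 := sum2 e1 e2
          have s2 := sum2 e1' e2'
          have hc : sg K δ * y ≠ 0 := mul_ne_zero (sg_ne δ) hy.ne
          have hr : rep K (jv (span K {w, p}) w) = rep K (jv (span K {w', p'}) w') :=
            rep_eq hj hj' hc (c2.symm.trans c2')
          have hxo : x + ω ≠ 0 := (B.short δ x ω hω c1).ne
          have hbP : rep K (jv (span K {w, p}) w) ∈ span K {w, p} := rep_mem jv_mem
          have hbP2 : rep K (jv (span K {w, p}) w) ∈ span K {w', p'} := by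
            rw [hr]
            exact rep_mem jv_mem
          have hb0 : rep K (jv (span K {w, p}) w) ≠ 0 := rep_ne hj
          have hnm : p + w ∉ span K {rep K (jv (span K {w, p}) w)} := by
            intro hm
            obtain ⟨r, hr1⟩ := mem_span_singleton.1 hm
            rw [s1] at hr1
            have := ab_eq hK hP hwP hw (s := 0) (t := r) (s' := x + ω) (t' := y)
              (by rw [zero_smul, zero_add]; exact hr1)
            exact hxo this.1.symm
          have hPP : span K {w, p} = span K {w', p'} := by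
            rw [← span_pl hw n0 hb0 hnm hbP (add_mem_pl w p)]
            apply span_pl hw' n0' hb0 hnm hbP2
            rw [h]
            exact add_mem_pl w' p'
          have haa : rep K w = rep K w' := by
            have hjP2 : jv (span K {w, p}) w ∈ span K {w', p'} := by
              rw [← hPP]
              exact jv_mem
            have := partner hK hP' hwP' hw' hjP2 hj hr
            rw [← hPP, jv_jv hP hwP] at this
            rw [← this]
            have h6 : -w = (-1 : K) • w := by rw [neg_smul, one_smul]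
            rw [h6, rep_smul (neg_ne_zero.2 one_ne_zero)]
          have s3 : (x + ω) • rep K w + y • rep K (jv (span K {w, p}) w) =
              (x' + ω') • rep K w + y' • rep K (jv (span K {w, p}) w) := by
            rw [← s1, h, s2, ← haa, hr]
          obtain ⟨t1, t2⟩ := ab_eq hK hP hwP hw s3
          have hδ : δ = δ' := hK.S_unique hy (by rw [t2]; exact hy')
          subst hδ
          have hs : B.col δ x ω = B.col δ x' ω' := by rw [c1, c1']
          exact fin2 (a := rep K w) (z := y • rep K (jv (span K {w, p}) w)) B hY hω hω' e2 e1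
            (by rw [hr, t2, haa]; exact e2') (by rw [haa]; exact e1') h1 h2 hs t1

end Pool.Agent.Helper88.SQS
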