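import Mathlib

/-!
# MP_822206_co: definitions for the hand-in, and the goals LB (lower bound)
-/

set_option autoImplicit false

namespace Pool.Agent.Helper88.SQS

/-- `B` is a Steiner quadruple system on `V`: all blocks have four points and every set of three points
lies in exactly one block. -/
def IsSQS {V : Type*} [DecidableEq V] (B : Finset (Finset V)) : Prop :=
  (∀ b ∈ B, b.card = 4) ∧ ∀ t : Finset V, t.card = 3 → ∃! b, b ∈ B ∧ t ⊆ b

/-- The derived system at the point `x`: the sets `b \ {x}`, `x ∈ b ∈ B`. -/
def derived {V : Type*} [DecidableEq V] (B : Finset (Finset V)) (x : V) : Finset (Finset V) :=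
  (B.filter fun b => x ∈ b).image fun b => b.erase x

/-- The blocks of `T` can be coloured with `k` colours such that any two different blocks of the same
colour are disjoint, i.e. `T` can be partitioned into `k` (possibly empty) partial parallel classes. -/
def Colorable {V : Type*} (T : Finset (Finset V)) (k : ℕ) : Prop :=
  ∃ c : Finset V → Fin k, ∀ b ∈ T, ∀ b' ∈ T, b ≠ b' → c b = c b' → Disjoint b b'

/-- The (block) chromatic number. -/
noncomputable def chromaticNumber {V : Type*} (T : Finset (Finset V)) : ℕ :=
  sInf {k | Colorable T k}

/-- **LB** (lower bound). Proof. Let `n = card V`, `v = n - 1` (`v % 6 = 1`), `T = derived B x`, `c` the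
colouring.  For `y ≠ x` the blocks of `T` through `y`: every `z ∉ {x, y}` lies in exactly one of them, they
have three points each, so there are `(v - 1) / 2` of them, and they have different colours.  Count the pairs
(`y`, `i`), `y ≠ x`, `i` a colour, such that some block of `T` of colour `i` contains `y`: for each of the
`v` points `y` there are `(v - 1) / 2` colours `i`; for each of the `k` colours `i` the blocks of colour
`i` are pairwise disjoint triples, so they cover a number of points divisible by `3` and at most `v`,
so at most `v - 1`.  So `v * (v - 1) / 2 ≤ k * (v - 1)` and `v ≤ 2 k`. -/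
def G_LB : Prop := ∀ (V : Type) [Fintype V] [DecidableEq V] (B : Finset (Finset V)), IsSQS B →
  Fintype.card V % 6 = 2 → 8 ≤ Fintype.card V → ∀ (x : V) (k : ℕ), Colorable (derived B x) k →
  Fintype.card V / 2 ≤ k

end Pool.Agent.Helper88.SQS
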