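import Pool.Agent.Helper88.SQS.Colour2
import Pool.Agent.Helper88.SQS.Defs

/-!
# MP_822206_co: number of colours, and the colouring of the derived systems
-/

set_option autoImplicit false

namespace Pool.Agent.Helper88.SQS

open Submodule

variable {K E : Type*} [Field K] [AddCommGroup E] [Module K E]

variable (K) in
/-- the colours: `0` and the multiples of the representatives by squares -/
def IsColour (k : E) : Prop := k = 0 ∨ ∃ (s : K) (v : E), SQ s ∧ v ≠ 0 ∧ k = s • rep K v

theorem Col_isColour (hK : Fld K) {θ : K} (B : Base K θ) {p w k : E} (hw : w ≠ 0)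
    (h : Col B p w k) : IsColour K k := by
  rcases h with ⟨π, ω, hω, h1, h2, h3⟩ | ⟨n0, x, y, ω, δ, hω, hy, h1, h2, h3⟩
  · by_cases hc : B.col true π ω = 0
    · left
      rw [h3, hc, zero_smul]
    · right
      refine ⟨_, w, ?_, hw, h3⟩
      have := (B.miss true π ω hω hc).1
      simpa [S, sg] using this
  · rcases h3 with ⟨c1, c2⟩ | ⟨c1, c2⟩
    · right
      exact ⟨_, w, (B.miss δ x ω hω c1).1, hw, c2⟩
    · right
      exact ⟨_, _, hy, jv_ne (isP_pl hw n0) (mem_pl_left w p) hw, c2⟩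

theorem card_colours [Fintype E] [DecidableEq E] (hK : Fld K) (C : Finset E)
    (hC : ∀ k ∈ C, IsColour K k) : C.card ≤ (Fintype.card E + 1) / 2 := by
  have h1 : Disjoint (C.erase 0) ((C.erase 0).image fun k => -k) := by
    rw [Finset.disjoint_left]
    intro k hk hk'
    obtain ⟨l, hl, h⟩ := Finset.mem_image.1 hk'
    rw [Finset.mem_erase] at hk hl
    rcases hC k hk.2 with h2 | ⟨s, v, hs, hv, h2⟩
    · exact hk.1 h2
    rcases hC l hl.2 with h3 | ⟨t, u, ht, hu, h3⟩
    · exact hl.1 h3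
    have h4 : s • rep K v = (-t) • rep K u := by
      rw [← h2, ← h, h3, neg_smul]
    have h5 := rep_eq hv hu hs.ne h4
    rw [← h5] at h4
    have h6 : s = -t := smul_left_injective K (rep_ne hv) h4
    apply hK.nand t ht
    rw [← h6]
    exact hs
  have h2 : ((C.erase 0).image fun k => -k).card = (C.erase 0).card :=
    Finset.card_image_of_injective _ neg_injective
  have h3 : (C.erase 0) ∪ ((C.erase 0).image fun k => -k) ⊆ Finset.univ.erase 0 := by
    intro k hk
    rw [Finset.mem_erase]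
    refine ⟨?_, Finset.mem_univ _⟩
    rcases Finset.mem_union.1 hk with hk | hk
    · exact (Finset.mem_erase.1 hk).1
    · obtain ⟨l, hl, h⟩ := Finset.mem_image.1 hk
      rw [← h]
      exact neg_ne_zero.2 (Finset.mem_erase.1 hl).1
  have h4 := Finset.card_le_card h3
  rw [Finset.card_union_of_disjoint h1, h2, Finset.card_erase_of_mem (Finset.mem_univ _),
    Finset.card_univ] at h4
  have h5 : C.card ≤ (C.erase 0).card + 1 := by
    have := Finset.pred_card_le_card_erase (s := C) (a := (0 : E))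
    omega
  have h6 : 0 < Fintype.card E := Fintype.card_pos
  omega

/-- the triple `p + w C`, `C = {1, θ, θ²}` -/
def blk [DecidableEq E] (θ : K) (p w : E) : Finset E := {p + w, p + θ • w, p + θ • θ • w}

theorem blk_rot [DecidableEq E] {θ : K} (hθ : θ ^ 3 = 1) (p w : E) :
    blk θ p (θ • w) = blk θ p w := by
  have h : θ • θ • θ • w = w := by
    rw [smul_smul, smul_smul]
    have : θ * (θ * θ) = 1 := by rw [← hθ]; ring
    have h2 : θ * θ * θ = 1 := by rw [← hθ]; ring
    first | rw [this, one_smul] | rw [h2, one_smul]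
  unfold blk
  rw [h]
  ext z
  simp only [Finset.mem_insert, Finset.mem_singleton]
  tauto

theorem mem_blk [DecidableEq E] {θ : K} {p w z : E} :
    z ∈ blk θ p w ↔ z = p + w ∨ z = p + θ • w ∨ z = p + θ • θ • w := by
  simp [blk]

/-- a family of triples `p + w C` given by a relation with the properties (Y1), (Y2) -/
theorem colorable_of [Fintype E] [DecidableEq E] (hK : Fld K) {θ : K} (hθ : θ ^ 3 = 1)
    (B : Base K θ) {Y : E → E → Prop}
    (hY : ∀ p w (l m : K), l ≠ 0 → Y p w → Y (p + m • w) (l • w) → SQ l)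
    (hrot : ∀ p w, Y p w → Y p (θ • w))
    (T : Finset (Finset E)) (hT : ∀ b ∈ T, ∃ p w, w ≠ 0 ∧ Y p w ∧ b = blk θ p w) :
    Colorable T ((Fintype.card E + 1) / 2) := by
  classical
  have hθ0 : θ ≠ 0 := by
    rintro rfl
    simp at hθ
  -- colour of a block
  have h1 : ∀ b : Finset E, ∃ k : E, b ∈ T → ∃ p w, w ≠ 0 ∧ Y p w ∧ b = blk θ p w ∧
      Col B p w k := by
    intro b
    by_cases hb : b ∈ T
    · obtain ⟨p, w, hw, hy, h⟩ := hT b hb
      obtain ⟨k, hk⟩ := exists_Col hK B p hw
      exact ⟨k, fun _ => ⟨p, w, hw, hy, h, hk⟩⟩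
    · exact ⟨0, fun h => (hb h).elim⟩
  choose κ hκ using h1
  -- a common point
  have h2 : ∀ b ∈ T, ∀ z ∈ b, ∃ p w, w ≠ 0 ∧ Y p w ∧ b = blk θ p w ∧ Col B p w (κ b) ∧
      z = p + w := by
    intro b hb z hz
    obtain ⟨p, w, hw, hy, h, hk⟩ := hκ b hb
    have r1 := hrot _ _ hy
    have r2 := hrot _ _ r1
    have c1 := Col_rot hθ0 B hk
    have c2 := Col_rot hθ0 B c1
    rw [h, mem_blk] at hz
    rcases hz with hz | hz | hz
    · exact ⟨p, w, hw, hy, h, hk, hz⟩
    · exact ⟨p, θ • w, smul_ne_zero hθ0 hw, r1, by rw [blk_rot hθ]; exact h, c1, hz⟩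
    · exact ⟨p, θ • θ • w, smul_ne_zero hθ0 (smul_ne_zero hθ0 hw), r2,
        by rw [blk_rot hθ, blk_rot hθ]; exact h, c2, hz⟩
  have h3 : ∀ b ∈ T, ∀ b' ∈ T, b ≠ b' → κ b = κ b' → Disjoint b b' := by
    intro b hb b' hb' hne hk
    rw [Finset.disjoint_left]
    intro z hz hz'
    obtain ⟨p, w, hw, hy, h, hc, e⟩ := h2 b hb z hz
    obtain ⟨p', w', hw', hy', h', hc', e'⟩ := h2 b' hb' z hz'
    rw [← hk] at hc'
    obtain ⟨rfl, rfl⟩ := Col_main hK B hY hw hw' hy hy' hc hc' (e.symm.trans e')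
    exact hne (h.trans h'.symm)
  -- the colours
  have h4 : ∀ k ∈ T.image κ, IsColour K k := by
    intro k hk
    obtain ⟨b, hb, rfl⟩ := Finset.mem_image.1 hk
    obtain ⟨p, w, hw, hy, h, hk⟩ := hκ b hb
    exact Col_isColour hK B hw hk
  have h5 := card_colours hK (T.image κ) h4
  have h6 : (T.image κ).card ≤ Fintype.card (Fin ((Fintype.card E + 1) / 2)) := by
    rw [Fintype.card_fin]
    exact h5
  have hpos : 0 < (Fintype.card E + 1) / 2 := by
    have : 0 < Fintype.card E := Fintype.card_pos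
    omega
  have : Nonempty (Fin ((Fintype.card E + 1) / 2)) := ⟨⟨0, hpos⟩⟩
  have h7 : ∃ f : (T.image κ) → Fin ((Fintype.card E + 1) / 2), Function.Injective f := by
    have : Fintype.card (T.image κ) ≤ Fintype.card (Fin ((Fintype.card E + 1) / 2)) := by
      rw [Fintype.card_coe]
      exact h6
    obtain ⟨e⟩ := Function.Embedding.nonempty_of_card_le this
    exact ⟨e, e.injective⟩
  obtain ⟨f, hf⟩ := h7
  refine ⟨fun b => if h : κ b ∈ T.image κ then f ⟨κ b, h⟩ else ⟨0, hpos⟩, ?_⟩
  intro b hb b' hb' hne hc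
  have m1 : κ b ∈ T.image κ := Finset.mem_image_of_mem _ hb
  have m2 : κ b' ∈ T.image κ := Finset.mem_image_of_mem _ hb'
  simp only [dif_pos m1, dif_pos m2] at hc
  have := hf hc
  exact h3 b hb b' hb' hne (congrArg Subtype.val this)

/-- transport of colourings -/
theorem Colorable.of_image {E V : Type*} [DecidableEq V] {f : E → V}
    (hf : Function.Injective f) {T : Finset (Finset E)} {T' : Finset (Finset V)} {k : ℕ}
    (h : Colorable T k) (hT : ∀ b ∈ T', ∃ a ∈ T, b = a.image f) : Colorable T' k := by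
  classical
  obtain ⟨c, hc⟩ := h
  have hp : ∀ a : Finset E, (a.image f).preimage f hf.injOn = a := by
    intro a
    ext z
    simp only [Finset.mem_preimage, Finset.mem_image]
    constructor
    · rintro ⟨y, hy, h⟩
      rw [← hf h]
      exact hy
    · intro hz
      exact ⟨z, hz, rfl⟩
  refine ⟨fun b => c (b.preimage f hf.injOn), ?_⟩
  intro b hb b' hb' hne hcc
  obtain ⟨a, ha, rfl⟩ := hT b hb
  obtain ⟨a', ha', rfl⟩ := hT b' hb'
  simp only [hp] at hcc
  have hd := hc a ha a' ha' (by rintro rfl; exact hne rfl) hcc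
  exact (Finset.disjoint_image hf).2 hd

end Pool.Agent.Helper88.SQS
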