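import Pool.Agent.Helper88.SQS.Orient
import Pool.Agent.Helper31.SQS.Proj
import Pool.Agent.Helper63.SQS.Base43

/-!
# MP_822206_co: assembly
-/

set_option autoImplicit false

namespace Pool.Agent.Helper88.SQS

/-- There is a Steiner quadruple system of order `n` all of whose derived systems have chromatic
number `n / 2`. -/
def Good (n : ℕ) : Prop := ∃ B : Finset (Finset (Fin n)), IsSQS B ∧
  ∀ x : Fin n, chromaticNumber (derived B x) = n / 2

open Pool.Agent.Helper31.SQS in
theorem good_of {K F : Type} [Field K] [Field F] [Algebra K F] [Fintype F] (hK : Fld K) (θ : K)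
    (hθ : θ ^ 2 + θ + 1 = 0) (h3 : (3 : K) ≠ 0) (B : Base K θ)
    (h6 : Fintype.card F % 6 = 1) (h7 : 7 ≤ Fintype.card F) :
    Good (Fintype.card F + 1) := by
  classical
  have hθ3 : θ ^ 3 = 1 := by linear_combination (θ - 1) * hθ
  obtain ⟨S, hS, hc⟩ := proj_main (F := F) hK θ hθ h3 ((Fintype.card F + 1) / 2) (by
    intro O hO
    apply colorable_orient hK hθ3 B hO.1 hO.2
    intro b hb
    exact mem_TO.1 hb)
  have hV : Fintype.card (OnePoint F) = Fintype.card F + 1 := Fintype.card_option
  let e : OnePoint F ≃ Fin (Fintype.card F + 1) := Fintype.equivFinOfCardEq hV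
  refine ⟨tr e S, isSQS_tr e hS, ?_⟩
  intro x
  have h1 : derived (tr e S) x = tr e (derived S (e.symm x)) := by
    rw [← derived_tr, Equiv.apply_symm_apply]
  have h2 : Colorable (derived (tr e S) x) (Fintype.card (Fin (Fintype.card F + 1)) / 2) := by
    rw [h1, Fintype.card_fin]
    exact colorable_tr e (hc _)
  have h4 := chi_eq (Fin (Fintype.card F + 1)) (tr e S) (isSQS_tr e hS)
    (by rw [Fintype.card_fin]; omega) (by rw [Fintype.card_fin]; omega) x h2
  rw [Fintype.card_fin] at h4
  exact h4

theorem root43 : (36 : ZMod 43) ^ 2 + 36 + 1 = 0 := by decide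

theorem three43 : (3 : ZMod 43) ≠ 0 := by decide

theorem good43 (d : ℕ) (hd : 1 ≤ d) : Good (43 ^ d + 1) := by
  classical
  have : Fact (Nat.Prime 43) := ⟨by norm_num⟩
  have : Finite (GaloisField 43 d) := inferInstance
  have : Fintype (GaloisField 43 d) := Fintype.ofFinite _
  have hcard : Fintype.card (GaloisField 43 d) = 43 ^ d := by
    rw [← Nat.card_eq_fintype_card]
    exact GaloisField.card 43 d (by omega)
  have h6 : 43 ^ d % 6 = 1 := by
    rw [Nat.pow_mod]
    norm_num
  have h7 : 7 ≤ 43 ^ d := by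
    calc 7 ≤ 43 ^ 1 := by norm_num
      _ ≤ 43 ^ d := Nat.pow_le_pow_right (by norm_num) hd
  have := good_of (K := ZMod 43) (F := GaloisField 43 d) Pool.Agent.Helper63.SQS.fld43 36
    root43 three43 Pool.Agent.Helper63.SQS.base43 (by rw [hcard]; exact h6)
    (by rw [hcard]; exact h7)
  rw [hcard] at this
  exact this

end Pool.Agent.Helper88.SQS
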