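import Pool.Agent.Helper88.SQS.Colour3

/-!
# MP_822206_co: the colouring for an orientation of the affine lines
-/

set_option autoImplicit false

namespace Pool.Agent.Helper88.SQS

/-- the colouring, for an orientation `O` of the affine `K`-lines -/
theorem colorable_orient {K F : Type*} [Field K] [AddCommGroup F] [Module K F] [Fintype F]
    [DecidableEq F] (hK : Fld K) {θ : K} (hθ : θ ^ 3 = 1) (B : Base K θ) {O : F → F → Prop}
    (h1 : ∀ p w (m l : K), w ≠ 0 → l ≠ 0 → O p w → O (p + m • w) (l ^ 2 • w))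
    (h2 : ∀ p w, w ≠ 0 → (O p w ↔ ¬ O p (-w)))
    (T : Finset (Finset F))
    (hT : ∀ b ∈ T, ∃ p w, w ≠ 0 ∧ O p w ∧ b = {p + w, p + θ • w, p + θ ^ 2 • w}) :
    Colorable T ((Fintype.card F + 1) / 2) := by
  have hθ0 : θ ≠ 0 := by
    rintro rfl
    simp at hθ
  apply colorable_of hK hθ B (Y := fun p w => w ≠ 0 ∧ O p w)
  · rintro p w l m hl ⟨hw, hy⟩ ⟨-, hy'⟩
    rcases hK.or l hl with h | h
    · exact h
    · exfalso
      obtain ⟨r, hr, h3⟩ := h
      have h4 := h1 p w m r hw hr hy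
      rw [← h3, neg_smul] at h4
      exact (h2 _ _ (smul_ne_zero hl hw)).1 hy' h4
  · rintro p w ⟨hw, hy⟩
    refine ⟨smul_ne_zero hθ0 hw, ?_⟩
    have := h1 p w 0 (θ ^ 2) hw (pow_ne_zero 2 hθ0) hy
    rw [zero_smul, add_zero] at this
    have h3 : (θ ^ 2) ^ 2 = θ := by
      calc (θ ^ 2) ^ 2 = θ ^ 3 * θ := by ring
        _ = θ := by rw [hθ, one_mul]
    rwa [h3] at this
  · intro b hb
    obtain ⟨p, w, hw, hy, h⟩ := hT b hb
    refine ⟨p, w, hw, ⟨hw, hy⟩, ?_⟩
    rw [h]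
    unfold blk
    rw [smul_smul, pow_two]

end Pool.Agent.Helper88.SQS
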